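import Mathlib

/-!
# Absolute continuity from an integrable characteristic function
-/

open Set Filter MeasureTheory
open scoped Topology BoundedContinuousFunction ENNReal FourierTransform ContDiff InnerProductSpace
  Manifold

namespace Pool.Agent.Helper59.GC

section E

variable {E : Type*} [NormedAddCommGroup E] [InnerProductSpace ℝ E] [FiniteDimensional ℝ E]
  [MeasurableSpace E] [BorelSpace E]

/-- smooth cut-off functions -/
lemma exists_cutoff {K U : Set E} (hK : IsCompact K) (hU : IsOpen U) (hKU : K ⊆ U) :
    ∃ f : E → ℝ, ContDiff ℝ ∞ f ∧ HasCompactSupport f ∧ (∀ x ∈ K, f x = 1) ∧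
      (∀ x, 0 ≤ f x ∧ f x ≤ 1) ∧ ∀ x, x ∉ U → f x = 0 := by
  obtain ⟨K', hK', hKK', hK'U⟩ := exists_compact_between hK hU hKU
  obtain ⟨f, hf0, hf1, hf⟩ := exists_contMDiffMap_zero_one_of_isClosed (n := ⊤) 𝓘(ℝ, E)
    (s := (interior K')ᶜ) (t := K) isOpen_interior.isClosed_compl hK.isClosed
    (by rw [disjoint_compl_left_iff_subset]; exact hKK')
  refine ⟨f, f.contMDiff.contDiff, ?_, fun x hx => hf1 hx, fun x => hf x, ?_⟩
  · apply HasCompactSupport.intro hK'
    intro x hx
    exact hf0 (fun h => hx (interior_subset h))
  · intro x hx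
    exact hf0 (fun h => hx (hK'U (interior_subset h)))

/-- The integral of a test function against a finite measure through the characteristic
function. -/
lemma integral_eq_fourier (ν : Measure E) [IsFiniteMeasure ν]
    {f : E → ℝ} (hf : ContDiff ℝ ∞ f) (hc : HasCompactSupport f) :
    Integrable (fun x => (f x : ℂ)) volume ∧ Integrable (𝓕 (fun x => (f x : ℂ))) volume ∧
    ∫ x, (f x : ℂ) ∂ν =
      ∫ w, charFun ν ((2 * Real.pi) • w) * 𝓕 (fun x => (f x : ℂ)) w := by
  have hg1 : HasCompactSupport (fun x => (f x : ℂ)) := hc.comp_left (g := fun r : ℝ => (r : ℂ)) (by simp)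
  have hg2 : ContDiff ℝ ∞ (fun x => (f x : ℂ)) := Complex.ofRealCLM.contDiff.comp hf
  let φ : SchwartzMap E ℂ := hg1.toSchwartzMap hg2
  have hF : Integrable (𝓕 (φ : E → ℂ)) volume := by
    rw [← SchwartzMap.fourier_coe]
    exact (𝓕 φ).integrable
  have hinv := φ.continuous.fourierInv_fourier_eq φ.integrable hF
  refine ⟨φ.integrable, hF, ?_⟩
  calc ∫ x, (f x : ℂ) ∂ν = ∫ x, 𝓕⁻ (𝓕 (φ : E → ℂ)) x ∂ν := by rw [hinv]; rfl
      _ = ∫ x, (∫ w, Complex.exp (((2 * Real.pi * ⟪w, x⟫_ℝ : ℝ)) * Complex.I) • 𝓕 (φ : E → ℂ) w) ∂ν := by
          apply integral_congr_ae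
          filter_upwards with x
          rw [Real.fourierInv_eq']
      _ = ∫ w, (∫ x, Complex.exp (((2 * Real.pi * ⟪w, x⟫_ℝ : ℝ)) * Complex.I) • 𝓕 (φ : E → ℂ) w ∂ν) := by
          apply integral_integral_swap
          apply Integrable.mono' (hF.norm.comp_snd ν)
          · refine AEStronglyMeasurable.smul
              (f := fun p : E × E => Complex.exp (((2 * Real.pi * ⟪p.2, p.1⟫_ℝ : ℝ)) * Complex.I))
              (g := fun p : E × E => 𝓕 (φ : E → ℂ) p.2) ?_ ?_
            · apply Continuous.aestronglyMeasurable
              fun_prop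
            · exact hF.aestronglyMeasurable.comp_snd
          · filter_upwards with p
            simp only [Function.uncurry]
            rw [norm_smul, Complex.norm_exp_ofReal_mul_I, one_mul]
      _ = _ := by
          apply integral_congr_ae
          filter_upwards with w
          rw [integral_smul_const, smul_eq_mul, charFun_apply]
          congr 1
          apply integral_congr_ae
          filter_upwards with x
          rw [inner_smul_right, real_inner_comm]

/-- The integral of a test function against a measure with integrable characteristic function. -/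
lemma abs_integral_le (ν : Measure E) [IsFiniteMeasure ν] (h : Integrable (charFun ν) volume)
    {f : E → ℝ} (hf : ContDiff ℝ ∞ f) (hc : HasCompactSupport f) :
    |∫ x, f x ∂ν| ≤ (∫ w : E, ‖charFun ν ((2 * Real.pi) • w)‖) * ∫ x, |f x| := by
  obtain ⟨-, -, e1⟩ := integral_eq_fourier ν hf hc
  have e2 : |∫ x, f x ∂ν| = ‖∫ x, (f x : ℂ) ∂ν‖ := by
    rw [integral_complex_ofReal, Complex.norm_real, Real.norm_eq_abs]
  have hbd : ∀ w, ‖𝓕 (fun x => (f x : ℂ)) w‖ ≤ ∫ x, |f x| := by
    intro w
    have := VectorFourier.norm_fourierIntegral_le_integral_norm Real.fourierChar volume (innerₗ E)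
      (fun x => (f x : ℂ)) w
    refine le_trans (le_of_eq rfl) (this.trans (le_of_eq ?_))
    apply integral_congr_ae
    filter_upwards with x
    rw [Complex.norm_real, Real.norm_eq_abs]
  have hint : Integrable (fun w : E => charFun ν ((2 * Real.pi) • w)) volume :=
    h.comp_smul (by positivity)
  rw [e2, e1, ← integral_mul_const]
  apply norm_integral_le_of_norm_le
  · exact hint.norm.mul_const _
  · filter_upwards with w
    rw [norm_mul]
    exact mul_le_mul_of_nonneg_left (hbd w) (norm_nonneg _)

/-- **Absolute continuity.** -/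
theorem absCont_of_charFun (ν : Measure E) [IsFiniteMeasure ν]
    (h : Integrable (charFun ν) volume) : ν ≪ volume := by
  set C : ℝ := ∫ w : E, ‖charFun ν ((2 * Real.pi) • w)‖ with hC
  have hC0 : 0 ≤ C := integral_nonneg fun w => norm_nonneg _
  have key : ∀ K : Set E, IsCompact K → volume K = 0 → ν K = 0 := by
    intro K hK h0
    have h1 : ∀ ε : ℝ, 0 < ε → ν.real K ≤ C * ε := by
      intro ε hε
      obtain ⟨U, hKU, hU, hUε⟩ := hK.exists_isOpen_lt_of_lt (μ := volume) (ENNReal.ofReal ε)
        (by rw [h0]; exact ENNReal.ofReal_pos.mpr hε)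
      obtain ⟨f, hf, hc, hf1, hf01, hf0⟩ := exists_cutoff hK hU hKU
      have h2 := abs_integral_le ν h hf hc
      have hfν : Integrable f ν := hf.continuous.integrable_of_hasCompactSupport hc
      have hfv : Integrable f volume := hf.continuous.integrable_of_hasCompactSupport hc
      have h3 : ν.real K ≤ ∫ x, f x ∂ν := by
        rw [← integral_indicator_one hK.measurableSet]
        apply integral_mono _ hfν
        · intro x
          by_cases hx : x ∈ K
          · rw [indicator_of_mem hx, hf1 x hx]; rfl
          · rw [indicator_of_notMem hx]; exact (hf01 x).1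
        · exact (integrable_indicator_iff hK.measurableSet).mpr (integrable_const _).integrableOn
      have h4 : ∫ x, |f x| ≤ ε := by
        have h5 : volume U ≠ ⊤ := (hUε.trans ENNReal.ofReal_lt_top).ne
        calc ∫ x, |f x| ≤ ∫ x, U.indicator (fun _ => (1 : ℝ)) x := by
              apply integral_mono hfv.abs
              · exact (integrable_indicator_iff hU.measurableSet).mpr
                  (integrableOn_const h5)
              · intro x
                by_cases hx : x ∈ U
                · simp only [indicator_of_mem hx]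
                  rw [abs_of_nonneg (hf01 x).1]; exact (hf01 x).2
                · simp only [indicator_of_notMem hx]
                  rw [hf0 x hx, abs_zero]
          _ = volume.real U := by
              rw [integral_indicator hU.measurableSet, setIntegral_const, smul_eq_mul, mul_one]
          _ ≤ ε := by
              rw [measureReal_def]
              exact ENNReal.toReal_le_of_le_ofReal hε.le hUε.le
      calc ν.real K ≤ ∫ x, f x ∂ν := h3
        _ ≤ |∫ x, f x ∂ν| := le_abs_self _
        _ ≤ C * ∫ x, |f x| := h2
        _ ≤ C * ε := mul_le_mul_of_nonneg_left h4 hC0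
    have h2 : ν.real K ≤ 0 := by
      apply le_of_forall_pos_le_add
      intro δ hδ
      have h3 := h1 (δ / (C + 1)) (by positivity)
      refine h3.trans ?_
      rw [zero_add, mul_div_assoc', div_le_iff₀ (by positivity)]
      nlinarith
    have h3 : ν.real K = 0 := le_antisymm h2 measureReal_nonneg
    rwa [measureReal_def, ENNReal.toReal_eq_zero_iff, or_iff_left (measure_ne_top ν K)] at h3
  refine Measure.AbsolutelyContinuous.mk fun s hs h0 => ?_
  rw [hs.measure_eq_iSup_isCompact_of_ne_top (measure_ne_top ν s)]
  simp only [ENNReal.iSup_eq_zero]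
  intro K hKs hK
  exact key K hK (measure_mono_null hKs h0)

end E

/-- **D2**: a probability measure on `I → ℝ` with integrable characteristic function is absolutely
continuous. -/
theorem D2 {I : Type*} [Fintype I] (μ : ProbabilityMeasure (I → ℝ))
    (h : Integrable (fun ξ : I → ℝ => ∫ x : I → ℝ,
      Complex.exp (((∑ i, ξ i * x i : ℝ) : ℂ) * Complex.I) ∂(μ : Measure (I → ℝ))) volume) :
    (μ : Measure (I → ℝ)) ≪ volume := by
  have hp := PiLp.volume_preserving_toLp I
  set e : (I → ℝ) → EuclideanSpace ℝ I := WithLp.toLp 2 with he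
  have hme : Measurable e := hp.measurable
  have hemb : MeasurableEmbedding e := (MeasurableEquiv.toLp 2 (I → ℝ)).measurableEmbedding
  set ν : Measure (EuclideanSpace ℝ I) := (μ : Measure (I → ℝ)).map e with hν
  have hfin : IsFiniteMeasure ν := Measure.isFiniteMeasure_map _ _
  have hch : Integrable (charFun ν) volume := by
    rw [← hp.integrable_comp_emb hemb]
    refine h.congr ?_
    filter_upwards with ξ
    rw [Function.comp_apply, charFun_apply, hν, hemb.integral_map]
    apply integral_congr_ae
    filter_upwards with x
    congr 2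
  have hac := absCont_of_charFun ν hch
  refine Measure.AbsolutelyContinuous.mk fun s hs h0 => ?_
  have h1 : volume (e '' s) = 0 := by
    rw [← hp.measure_preimage_emb hemb, hemb.injective.preimage_image]
    exact h0
  have h2 := hac h1
  rw [hν, hemb.map_apply, hemb.injective.preimage_image] at h2
  exact h2

end Pool.Agent.Helper59.GC
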