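import Pool.Agent.Helper78.GC.Mean

/-!
# Existence of the limit law of an almost periodic vector sequence

A vector valued sequence which is approximated in mean by real trigonometric polynomials has a
limit distribution along every filter of segments on which the approximation holds.
-/

open Set Filter MeasureTheory
open scoped Topology BoundedContinuousFunction ENNReal

namespace Pool.Agent.Helper59.GC

open Pool.Agent.Helper78.GC

/-- Completeness: a function approximated by convergent functions converges. -/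
lemma exists_tendsto_of_approx {α : Type*} {F : Filter α} [F.NeBot] {f : α → ℝ}
    (h : ∀ ε > 0, ∃ g : α → ℝ, (∃ a, Tendsto g F (𝓝 a)) ∧ ∀ᶠ p in F, |f p - g p| ≤ ε) :
    ∃ a, Tendsto f F (𝓝 a) := by
  have hc : Cauchy (map f F) := by
    rw [Metric.cauchy_iff]
    refine ⟨inferInstance, fun ε hε => ?_⟩
    obtain ⟨g, ⟨a, ha⟩, hg⟩ := h (ε / 4) (by positivity)
    have h1 : ∀ᶠ p in F, dist (g p) a < ε / 4 :=
      ha.eventually (Metric.ball_mem_nhds a (by positivity))
    refine ⟨Metric.ball a (ε / 2), ?_, ?_⟩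
    · rw [mem_map]
      filter_upwards [h1, hg] with p hp hp'
      rw [mem_preimage, Metric.mem_ball]
      have : dist (f p) (g p) ≤ ε / 4 := by rw [Real.dist_eq]; exact hp'
      linarith [dist_triangle (f p) (g p) a]
    · intro x hx y hy
      rw [Metric.mem_ball] at hx hy
      linarith [dist_triangle_right x y a]
  obtain ⟨a, ha⟩ := CompleteSpace.complete hc
  exact ⟨a, ha⟩

lemma bounded_of_mem_TP {Θ : AddSubgroup ℝ} {u : ℕ → ℂ} (hu : u ∈ TP Θ) :
    ∃ B : ℝ, ∀ n, ‖u n‖ ≤ B := by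
  refine TP_induction (p := fun u => ∃ B : ℝ, ∀ n, ‖u n‖ ≤ B) ?_ ?_ ?_ ?_ hu
  · intro θ _
    exact ⟨1, fun n => by rw [ch, Pool.Agent.Helper22.GC.norm_ee]⟩
  · exact ⟨0, fun n => by simp⟩
  · rintro u v ⟨a, ha⟩ ⟨b, hb⟩
    exact ⟨a + b, fun n => (norm_add_le _ _).trans (add_le_add (ha n) (hb n))⟩
  · rintro c u ⟨a, ha⟩
    refine ⟨‖c‖ * a, fun n => ?_⟩
    rw [Pi.smul_apply, norm_smul]
    exact mul_le_mul_of_nonneg_left (ha n) (norm_nonneg c)

lemma bounded_of_mem_RT {Θ : AddSubgroup ℝ} {f : ℕ → ℝ} (hf : f ∈ RT Θ) :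
    ∃ B : ℝ, ∀ n, |f n| ≤ B := by
  obtain ⟨B, hB⟩ := bounded_of_mem_TP (mem_RT.mp hf)
  refine ⟨B, fun n => ?_⟩
  have := hB n
  simpa using this

lemma mr_abs_sub_le {f g : ℕ → ℝ} {ε : ℝ} (h : ∀ n, |f n - g n| ≤ ε) {p : ℕ × ℕ}
    (hp : 1 ≤ p.2) : |mr f p - mr g p| ≤ ε := by
  rw [← mr_sub]
  exact (abs_mr_le _ _).trans (mr_le_const hp fun n _ => h n)

variable {I : Type*} [Fintype I]

/-- A continuous function of finitely many trigonometric polynomials has a mean value. -/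
lemma exists_mean_cont {w : ℕ → I → ℝ} (hw : ∀ i, (fun n => w n i) ∈ RT ⊤)
    {φ : (I → ℝ) → ℝ} (hφ : Continuous φ) :
    ∃ a, Tendsto (mr (fun n => φ (w n))) Gf (𝓝 a) := by
  classical
  choose B₀ hB₀ using fun i => bounded_of_mem_RT (hw i)
  obtain ⟨B, hB0, hB⟩ : ∃ B : ℝ, 0 ≤ B ∧ ∀ n, w n ∈ Metric.closedBall (0 : I → ℝ) B := by
    refine ⟨∑ i, |B₀ i|, Finset.sum_nonneg fun i _ => abs_nonneg _, fun n => ?_⟩
    rw [mem_closedBall_zero_iff, pi_norm_le_iff_of_nonneg (Finset.sum_nonneg fun i _ => abs_nonneg _)]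
    intro i
    rw [Real.norm_eq_abs]
    refine (hB₀ i n).trans ((le_abs_self _).trans ?_)
    exact Finset.single_le_sum (f := fun i => |B₀ i|) (fun i _ => abs_nonneg _) (Finset.mem_univ i)
  let X := Metric.closedBall (0 : I → ℝ) B
  have hX : CompactSpace X := isCompact_iff_compactSpace.mp (isCompact_closedBall 0 B)
  let x : ℕ → X := fun n => ⟨w n, hB n⟩
  let A : Subalgebra ℝ C(X, ℝ) :=
    { carrier := {f | (fun n => f (x n)) ∈ RT ⊤}
      mul_mem' := by
        intro f g hf hg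
        exact mul_mem_RT hf hg
      add_mem' := by
        intro f g hf hg
        exact add_mem_RT hf hg
      algebraMap_mem' := by
        intro r
        exact const_mem_RT ⊤ r }
  have hA : A.SeparatesPoints := by
    intro a b hab
    have : ∃ i, (a : I → ℝ) i ≠ (b : I → ℝ) i := by
      by_contra hcon
      push Not at hcon
      exact hab (Subtype.ext (funext hcon))
    obtain ⟨i, hi⟩ := this
    refine ⟨fun y : X => (y : I → ℝ) i, ⟨⟨fun y : X => (y : I → ℝ) i,
      (continuous_apply i).comp continuous_subtype_val⟩, ?_, rfl⟩, hi⟩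
    exact hw i
  let f : C(X, ℝ) := ⟨fun y => φ y, by fun_prop⟩
  apply exists_tendsto_of_approx
  intro ε hε
  obtain ⟨g, hg⟩ := ContinuousMap.exists_mem_subalgebra_near_continuousMap_of_separatesPoints
    A hA f ε hε
  refine ⟨mr (fun n => (g : C(X, ℝ)) (x n)), ⟨_, tendsto_Lr g.2⟩, ?_⟩
  filter_upwards [eventually_one_le] with p hp
  apply mr_abs_sub_le _ hp
  intro n
  have h1 := ContinuousMap.norm_coe_le_norm ((g : C(X, ℝ)) - f) (x n)
  rw [ContinuousMap.sub_apply, Real.norm_eq_abs, abs_sub_comm] at h1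
  exact h1.trans hg.le

/-- The empirical measure of a vector sequence on a segment. -/
noncomputable def emp (v : ℕ → I → ℝ) (p : ℕ × ℕ) : Measure (I → ℝ) :=
  (p.2 : ℝ≥0∞)⁻¹ • ∑ n ∈ Finset.Ioc p.1 (p.1 + p.2), Measure.dirac (v n)

lemma emp_prob (v : ℕ → I → ℝ) {p : ℕ × ℕ} (hp : 1 ≤ p.2) : IsProbabilityMeasure (emp v p) := by
  constructor
  rw [emp, Measure.smul_apply, Measure.finsetSum_apply]
  simp only [measure_univ, Finset.sum_const, Nat.card_Ioc, add_tsub_cancel_left, nsmul_eq_mul,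
    mul_one, smul_eq_mul]
  exact ENNReal.inv_mul_cancel (by simp; omega) (ENNReal.natCast_ne_top _)

lemma integrable_emp (v : ℕ → I → ℝ) {p : ℕ × ℕ} (hp : 1 ≤ p.2) {φ : (I → ℝ) → ℝ} :
    Integrable φ (emp v p) := by
  rw [emp]
  apply Integrable.smul_measure
  · rw [integrable_finsetSum_measure]
    intro n _
    exact integrable_dirac (by simp)
  · exact ENNReal.inv_ne_top.mpr (by simp; omega)

lemma integral_emp (v : ℕ → I → ℝ) {p : ℕ × ℕ} {φ : (I → ℝ) → ℝ} :
    ∫ x, φ x ∂(emp v p) = mr (fun n => φ (v n)) p := by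
  rw [emp, integral_smul_measure, integral_finsetSum_measure]
  · simp [mr]
  · intro n _
    exact integrable_dirac (by simp)

/-- Markov's inequality for the empirical measures. -/
lemma emp_compl_le (v : ℕ → I → ℝ) {p : ℕ × ℕ} (hp : 1 ≤ p.2) {C : ℝ}
    (hC : ∀ i, mr (fun n => |v n i|) p ≤ C) {R : ℝ} :
    R * (emp v p).real {x | R ≤ ‖x‖} ≤ Fintype.card I * C := by
  have := emp_prob v hp
  have h1 := mul_meas_ge_le_integral_of_nonneg (μ := emp v p) (f := fun x : I → ℝ => ‖x‖)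
    (Eventually.of_forall fun x => norm_nonneg x) (integrable_emp v hp) R
  refine h1.trans ?_
  rw [integral_emp]
  have h2 : mr (fun n => ‖v n‖) p ≤ mr (fun n => ∑ i, |v n i|) p := by
    apply mr_mono
    intro n _
    rw [pi_norm_le_iff_of_nonneg (Finset.sum_nonneg fun i _ => abs_nonneg _)]
    intro i
    rw [Real.norm_eq_abs]
    exact Finset.single_le_sum (f := fun i => |v n i|) (fun i _ => abs_nonneg _)
      (Finset.mem_univ i)
  refine h2.trans ?_
  rw [mr_sum]
  refine (Finset.sum_le_sum fun i _ => hC i).trans ?_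
  rw [Finset.sum_const, Finset.card_univ, nsmul_eq_mul]

/-- Empirical measures with bounded first moments. -/
def goodSet (v : ℕ → I → ℝ) (C : ℝ) : Set (ProbabilityMeasure (I → ℝ)) :=
  {ν | ∃ (p : ℕ × ℕ), 1 ≤ p.2 ∧ (∀ i, mr (fun n => |v n i|) p ≤ C) ∧
    (ν : Measure (I → ℝ)) = emp v p}

lemma goodSet_compact (v : ℕ → I → ℝ) (C : ℝ) : IsCompact (closure (goodSet v C)) := by
  apply isCompact_closure_of_isTightMeasureSet
  rw [isTightMeasureSet_iff_exists_isCompact_measure_compl_le]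
  intro ε hε
  set D : ℝ := Fintype.card I * |C| + 1 with hD
  have hDpos : 0 < D := by positivity
  set δ : ℝ := (min ε 1).toReal with hδ
  have hmin : min ε 1 ≠ ⊤ := (lt_of_le_of_lt (min_le_right _ _) ENNReal.one_lt_top).ne
  have hδpos : 0 < δ := ENNReal.toReal_pos (lt_min hε one_pos).ne' hmin
  refine ⟨Metric.closedBall 0 (D / δ), isCompact_closedBall _ _, ?_⟩
  rintro _ ⟨ν, ⟨p, hp, hC, hν⟩, rfl⟩
  have hprob := emp_prob v hp
  rw [hν]
  have h1 := emp_compl_le v hp hC (R := D / δ)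
  have h2 : Fintype.card I * C ≤ D := by
    have : (Fintype.card I : ℝ) * C ≤ Fintype.card I * |C| :=
      mul_le_mul_of_nonneg_left (le_abs_self C) (by positivity)
    rw [hD]; linarith
  have h3 : (emp v p).real {x | D / δ ≤ ‖x‖} ≤ δ := by
    have h4 : D / δ * (emp v p).real {x | D / δ ≤ ‖x‖} ≤ D / δ * δ := by
      rw [div_mul_cancel₀ _ hδpos.ne']
      exact h1.trans h2
    exact le_of_mul_le_mul_left h4 (by positivity)
  calc (emp v p) (Metric.closedBall 0 (D / δ))ᶜ ≤ (emp v p) {x | D / δ ≤ ‖x‖} := by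
        apply measure_mono
        intro x hx
        rw [mem_compl_iff, mem_closedBall_zero_iff, not_le] at hx
        exact hx.le
    _ = ENNReal.ofReal ((emp v p).real {x | D / δ ≤ ‖x‖}) := by
        rw [measureReal_def, ENNReal.ofReal_toReal (measure_ne_top _ _)]
    _ ≤ ENNReal.ofReal δ := ENNReal.ofReal_le_ofReal h3
    _ = min ε 1 := ENNReal.ofReal_toReal hmin
    _ ≤ ε := min_le_left _ _

open Classical in
/-- The empirical measures as probability measures. -/
noncomputable def pemp (v : ℕ → I → ℝ) (p : ℕ × ℕ) : ProbabilityMeasure (I → ℝ) :=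
  if h : 1 ≤ p.2 then ⟨emp v p, emp_prob v h⟩ else ⟨Measure.dirac 0, inferInstance⟩

lemma pemp_coe (v : ℕ → I → ℝ) {p : ℕ × ℕ} (hp : 1 ≤ p.2) :
    (pemp v p : Measure (I → ℝ)) = emp v p := by
  rw [pemp, dif_pos hp]; rfl

lemma ProbabilityMeasure_ext_lipschitz {μ ν : ProbabilityMeasure (I → ℝ)}
    (h : ∀ f : (I → ℝ) →ᵇ ℝ, (∃ L, LipschitzWith L f) → ∫ x, f x ∂(μ : Measure (I → ℝ)) =
      ∫ x, f x ∂(ν : Measure (I → ℝ))) : μ = ν := by
  have h1 : Tendsto (fun _ : ℕ => μ) atTop (𝓝 ν) := by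
    rw [tendsto_iff_forall_lipschitz_integral_tendsto]
    intro f hf hL
    have := h ⟨⟨f, hL.choose_spec.continuous⟩, hf⟩ hL
    have h2 : ∫ x, f x ∂(μ : Measure (I → ℝ)) = ∫ x, f x ∂(ν : Measure (I → ℝ)) := this
    rw [h2]
    exact tendsto_const_nhds
  exact tendsto_nhds_unique tendsto_const_nhds h1

/-- **Existence of the limit law** along one filter of segments. -/
theorem limit_law {v : ℕ → I → ℝ} {w : ℕ → ℕ → I → ℝ}
    (hw : ∀ K i, (fun n => w K n i) ∈ RT ⊤) {F : Filter (ℕ × ℕ)} [F.NeBot] (hF : F ≤ Gf)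
    {η : ℕ → ℝ} (hη : Tendsto η atTop (𝓝 0))
    (happ : ∀ K, 1 ≤ K → ∀ i, ∀ a, η K < a → ∀ᶠ p in F, mr (fun n => |v n i - w K n i|) p ≤ a) :
    ∃ μ : ProbabilityMeasure (I → ℝ), ∀ φ : (I → ℝ) →ᵇ ℝ,
      Tendsto (mr (fun n => φ (v n))) F (𝓝 (∫ x, φ x ∂(μ : Measure (I → ℝ)))) := by
  classical
  have hone : ∀ᶠ p in F, 1 ≤ p.2 := hF eventually_one_le
  -- Step A
  have hA : ∀ φ : (I → ℝ) →ᵇ ℝ, (∃ L, LipschitzWith L φ) →
      ∃ a, Tendsto (mr (fun n => φ (v n))) F (𝓝 a) := by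
    rintro φ ⟨L, hL⟩
    apply exists_tendsto_of_approx
    intro ε hε
    set c : ℝ := L * Fintype.card I + 1 with hc
    have hcpos : 0 < c := by positivity
    obtain ⟨K, hK1, hK⟩ : ∃ K, 1 ≤ K ∧ η K < ε / c := by
      have := (hη.eventually (gt_mem_nhds (show (0 : ℝ) < ε / c by positivity))).and
        (eventually_ge_atTop 1)
      obtain ⟨K, hK⟩ := this.exists
      exact ⟨K, hK.2, hK.1⟩
    obtain ⟨a, ha⟩ := exists_mean_cont (hw K) φ.continuous
    refine ⟨mr (fun n => φ (w K n)), ⟨a, ha.mono_left hF⟩, ?_⟩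
    have h1 : ∀ᶠ p in F, ∀ i, mr (fun n => |v n i - w K n i|) p ≤ ε / c := by
      rw [eventually_all]
      exact fun i => happ K hK1 i _ hK
    filter_upwards [h1] with p hp
    rw [← mr_sub]
    refine (abs_mr_le _ _).trans ?_
    have h2 : mr (fun n => |φ (v n) - φ (w K n)|) p ≤
        mr (fun n => (L : ℝ) * ∑ i, |v n i - w K n i|) p := by
      apply mr_mono
      intro n _
      have h3 := hL.dist_le_mul (v n) (w K n)
      rw [Real.dist_eq] at h3
      refine h3.trans (mul_le_mul_of_nonneg_left ?_ L.2)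
      rw [dist_pi_le_iff (Finset.sum_nonneg fun i _ => abs_nonneg _)]
      intro i
      rw [Real.dist_eq]
      exact Finset.single_le_sum (f := fun i => |v n i - w K n i|) (fun i _ => abs_nonneg _)
        (Finset.mem_univ i)
    refine h2.trans ?_
    rw [mr_const_mul, mr_sum]
    calc (L : ℝ) * ∑ i, mr (fun n => |v n i - w K n i|) p
        ≤ L * ∑ _i : I, ε / c :=
          mul_le_mul_of_nonneg_left (Finset.sum_le_sum fun i _ => hp i) L.2
      _ = (L * Fintype.card I) * (ε / c) := by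
          rw [Finset.sum_const, Finset.card_univ, nsmul_eq_mul]; ring
      _ ≤ c * (ε / c) := by
          apply mul_le_mul_of_nonneg_right _ (by positivity)
          rw [hc]; linarith
      _ = ε := by field_simp
  -- Step B
  choose B₀ hB₀ using fun i => bounded_of_mem_RT (hw 1 i)
  set C : ℝ := ∑ i, |B₀ i| + (|η 1| + 1) with hC
  have hbd : ∀ᶠ p in F, pemp v p ∈ goodSet v C := by
    have h1 : ∀ᶠ p in F, ∀ i, mr (fun n => |v n i - w 1 n i|) p ≤ |η 1| + 1 := by
      rw [eventually_all]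
      exact fun i => happ 1 le_rfl i _ (by linarith [le_abs_self (η 1)])
    filter_upwards [h1, hone] with p hp hp1
    refine ⟨p, hp1, fun i => ?_, pemp_coe v hp1⟩
    have h2 : mr (fun n => |v n i|) p ≤ mr (fun n => |w 1 n i| + |v n i - w 1 n i|) p := by
      apply mr_mono
      intro n _
      have := abs_add_le (w 1 n i) (v n i - w 1 n i)
      rwa [add_sub_cancel] at this
    refine h2.trans ?_
    rw [mr_add]
    have h3 : mr (fun n => |w 1 n i|) p ≤ ∑ i, |B₀ i| := by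
      apply mr_le_const hp1
      intro n _
      refine (hB₀ i n).trans ((le_abs_self _).trans ?_)
      exact Finset.single_le_sum (f := fun i => |B₀ i|) (fun i _ => abs_nonneg _)
        (Finset.mem_univ i)
    rw [hC]
    exact add_le_add h3 (hp i)
  have hcomp := goodSet_compact v C
  have hbd' : ∀ᶠ p in F, pemp v p ∈ closure (goodSet v C) :=
    hbd.mono fun p hp => subset_closure hp
  -- Step C
  obtain ⟨μ, hμ, hcl⟩ := hcomp.exists_mapClusterPt (f := F) (u := pemp v) (by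
    rw [le_principal_iff]; exact hbd')
  -- Step D
  have hD : ∀ μ' : ProbabilityMeasure (I → ℝ), MapClusterPt μ' F (pemp v) →
      ∀ φ : (I → ℝ) →ᵇ ℝ, ∀ a, Tendsto (mr (fun n => φ (v n))) F (𝓝 a) →
      ∫ x, φ x ∂(μ' : Measure (I → ℝ)) = a := by
    intro μ' hμ' φ a ha
    have hcont : Continuous (fun ν : ProbabilityMeasure (I → ℝ) =>
        ∫ x, φ x ∂(ν : Measure (I → ℝ))) :=
      ProbabilityMeasure.continuous_integral_boundedContinuousFunction φ
    have h1 := hμ'.continuousAt_comp hcont.continuousAt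
    have h2 : Tendsto ((fun ν : ProbabilityMeasure (I → ℝ) =>
        ∫ x, φ x ∂(ν : Measure (I → ℝ))) ∘ pemp v) F (𝓝 a) := by
      refine ha.congr' ?_
      filter_upwards [hone] with p hp
      rw [Function.comp_apply, pemp_coe v hp, integral_emp]
    have h3 : (𝓝 (∫ x, φ x ∂(μ' : Measure (I → ℝ))) ⊓ 𝓝 a).NeBot :=
      NeBot.mono h1 (inf_le_inf_left _ h2)
    exact eq_of_nhds_neBot h3
  -- Step E
  have hE : ∀ μ' ∈ closure (goodSet v C), MapClusterPt μ' F (pemp v) → μ' = μ := by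
    intro μ' _ hμ'
    apply ProbabilityMeasure_ext_lipschitz
    intro f hf
    obtain ⟨a, ha⟩ := hA f hf
    rw [hD μ' hμ' f a ha, hD μ hcl f a ha]
  have hT : Tendsto (pemp v) F (𝓝 μ) := hcomp.tendsto_nhds_of_unique_mapClusterPt hbd' hE
  refine ⟨μ, fun φ => ?_⟩
  rw [ProbabilityMeasure.tendsto_iff_forall_integral_tendsto] at hT
  refine (hT φ).congr' ?_
  filter_upwards [hone] with p hp
  rw [pemp_coe v hp, integral_emp]

/-- **T5**: existence of the limit law, the same for all filters of a family. -/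
theorem T5 {v : ℕ → I → ℝ} {w : ℕ → ℕ → I → ℝ}
    (hw : ∀ K i, (fun n => w K n i) ∈ RT ⊤) (E : Set (Filter (ℕ × ℕ)))
    (hE : ∀ F ∈ E, F.NeBot ∧ F ≤ Gf) (hEne : E.Nonempty)
    {η : ℕ → ℝ} (hη : Tendsto η atTop (𝓝 0))
    (happ : ∀ K, 1 ≤ K → ∀ F ∈ E, ∀ i, ∀ a, η K < a →
      ∀ᶠ p in F, mr (fun n => |v n i - w K n i|) p ≤ a) :
    ∃ μ : ProbabilityMeasure (I → ℝ), ∀ F ∈ E, ∀ φ : (I → ℝ) →ᵇ ℝ,
      Tendsto (mr (fun n => φ (v n))) F (𝓝 (∫ x, φ x ∂(μ : Measure (I → ℝ)))) := by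
  obtain ⟨F₀, hF₀⟩ := hEne
  have hne : (sSup E).NeBot := NeBot.mono (hE F₀ hF₀).1 (le_sSup hF₀)
  obtain ⟨μ, hμ⟩ := limit_law (v := v) hw (F := sSup E) (sSup_le fun F hF => (hE F hF).2) hη
    (by
      intro K hK i a ha
      rw [Filter.Eventually, Filter.mem_sSup]
      exact fun F hF => happ K hK F hF i a ha)
  exact ⟨μ, fun F hF φ => (hμ φ).mono_left (le_sSup hF)⟩

end Pool.Agent.Helper59.GC
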