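import Pool.Agent.Helper59.GC.LimitLaw

/-!
# Consequences of the limit law: full support and natural densities
-/

open Set Filter MeasureTheory
open scoped Topology BoundedContinuousFunction ENNReal

namespace Pool.Agent.Helper59.GC

open Pool.Agent.Helper78.GC

variable {I : Type*} [Fintype I]

/-- weak convergence of the empirical measures. -/
lemma tendsto_pemp {v : ℕ → I → ℝ} {F : Filter (ℕ × ℕ)} (hF : F ≤ Gf)
    {μ : ProbabilityMeasure (I → ℝ)}
    (hμ : ∀ φ : (I → ℝ) →ᵇ ℝ, Tendsto (mr (fun n => φ (v n))) F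
      (𝓝 (∫ x, φ x ∂(μ : Measure (I → ℝ))))) : Tendsto (pemp v) F (𝓝 μ) := by
  rw [ProbabilityMeasure.tendsto_iff_forall_integral_tendsto]
  intro φ
  refine (hμ φ).congr' ?_
  filter_upwards [hF eventually_one_le] with p hp
  rw [pemp_coe v hp, integral_emp]

open Classical in
lemma emp_real (v : ℕ → I → ℝ) {p : ℕ × ℕ} {J : Set (I → ℝ)} (hJ : MeasurableSet J) :
    (emp v p).real J = mr (fun n => if v n ∈ J then 1 else 0) p := by
  rw [← integral_indicator_one hJ, integral_emp]
  congr 1

open Classical in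
/-- **T6 (b)**: full support. -/
theorem T6_pos {v : ℕ → I → ℝ} {F : Filter (ℕ × ℕ)} [F.NeBot]
    {μ : ProbabilityMeasure (I → ℝ)}
    (hμ : ∀ φ : (I → ℝ) →ᵇ ℝ, Tendsto (mr (fun n => φ (v n))) F
      (𝓝 (∫ x, φ x ∂(μ : Measure (I → ℝ)))))
    (hpos : ∀ y : I → ℝ, ∀ δ : ℝ, 0 < δ → ∃ c : ℝ, 0 < c ∧ ∀ᶠ p in F,
      c ≤ mr (fun n => if ∀ i, |v n i - y i| < δ then 1 else 0) p)
    {U : Set (I → ℝ)} (hU : IsOpen U) (hne : U.Nonempty) :
    0 < (μ : Measure (I → ℝ)) U := by
  obtain ⟨y, hy⟩ := hne
  obtain ⟨r, hr, hrU⟩ := Metric.isOpen_iff.mp hU y hy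
  set δ : ℝ := r / 2 with hδ
  have hδpos : 0 < δ := by positivity
  obtain ⟨c, hc, hcF⟩ := hpos y δ hδpos
  -- bump function
  let f : (I → ℝ) → ℝ := fun x => max 0 (min 1 (2 - dist x y / δ))
  have hf01 : ∀ x, 0 ≤ f x ∧ f x ≤ 1 := fun x =>
    ⟨le_max_left _ _, max_le zero_le_one (min_le_left _ _)⟩
  have hfc : Continuous f := by
    apply continuous_const.max
    apply continuous_const.min
    exact continuous_const.sub ((continuous_id.dist continuous_const).div_const _)
  let φ : (I → ℝ) →ᵇ ℝ := ⟨⟨f, hfc⟩, ⟨1, fun x z => by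
    show dist (f x) (f z) ≤ 1
    rw [Real.dist_eq, abs_le]
    have h1 := hf01 x
    have h2 := hf01 z
    constructor <;> linarith⟩⟩
  have hφ : ∀ x, φ x = f x := fun x => rfl
  have h1 : c ≤ ∫ x, φ x ∂(μ : Measure (I → ℝ)) := by
    refine ge_of_tendsto (hμ φ) ?_
    filter_upwards [hcF] with p hp
    refine hp.trans ?_
    apply mr_mono
    intro n _
    rw [hφ]
    split_ifs with h
    · have h2 : dist (v n) y ≤ δ := by
        rw [dist_pi_le_iff hδpos.le]
        intro i
        rw [Real.dist_eq]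
        exact (h i).le
      have h3 : dist (v n) y / δ ≤ 1 := by rw [div_le_one hδpos]; exact h2
      show (1 : ℝ) ≤ max 0 (min 1 (2 - dist (v n) y / δ))
      exact le_max_of_le_right (le_min le_rfl (by linarith))
    · exact (hf01 _).1
  have h2 : ∫ x, φ x ∂(μ : Measure (I → ℝ)) ≤ (μ : Measure (I → ℝ)).real U := by
    rw [← integral_indicator_one hU.measurableSet]
    apply integral_mono (φ.integrable _)
    · exact (integrable_indicator_iff hU.measurableSet).mpr (integrable_const _).integrableOn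
    · intro x
      by_cases hx : x ∈ U
      · simp only [indicator_of_mem hx]
        exact (hf01 x).2
      · simp only [indicator_of_notMem hx]
        have h3 : r ≤ dist x y := by
          by_contra hcon
          push Not at hcon
          exact hx (hrU hcon)
        have h4 : 2 ≤ dist x y / δ := by
          rw [le_div_iff₀ hδpos, hδ]; linarith
        show max 0 (min 1 (2 - dist x y / δ)) ≤ 0
        exact max_le le_rfl (min_le_of_right_le (by linarith))
  by_contra hcon
  have h3 : (μ : Measure (I → ℝ)) U = 0 := by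
    rw [not_lt] at hcon
    exact le_antisymm hcon bot_le
  rw [measureReal_def, h3, ENNReal.toReal_zero] at h2
  linarith

open Classical in
/-- **T6 (c)**: natural densities of sets whose frontier is a null set. -/
theorem T6_port {v : ℕ → I → ℝ} {F : Filter (ℕ × ℕ)} (hF : F ≤ Gf)
    {μ : ProbabilityMeasure (I → ℝ)}
    (hμ : ∀ φ : (I → ℝ) →ᵇ ℝ, Tendsto (mr (fun n => φ (v n))) F
      (𝓝 (∫ x, φ x ∂(μ : Measure (I → ℝ)))))
    {J : Set (I → ℝ)} (hJ : MeasurableSet J) (h0 : (μ : Measure (I → ℝ)) (frontier J) = 0) :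
    Tendsto (mr (fun n => if v n ∈ J then 1 else 0)) F (𝓝 ((μ : Measure (I → ℝ)).real J)) := by
  have h1 := ProbabilityMeasure.tendsto_measure_of_null_frontier_of_tendsto'
    (tendsto_pemp hF hμ) h0
  have h2 := (ENNReal.tendsto_toReal (measure_ne_top (μ : Measure (I → ℝ)) J)).comp h1
  refine h2.congr' ?_
  filter_upwards [hF eventually_one_le] with p hp
  rw [Function.comp_apply, pemp_coe v hp, ← emp_real v hJ, measureReal_def]

end Pool.Agent.Helper59.GC
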