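import Pool.Agent.Helper59.GC.AbsCont

/-!
# Smooth densities from exponentially decaying characteristic functions
-/

open Set Filter MeasureTheory
open scoped Topology BoundedContinuousFunction ENNReal FourierTransform ContDiff InnerProductSpace

namespace Pool.Agent.Helper59.GC

section E

variable {E : Type*} [NormedAddCommGroup E] [InnerProductSpace ℝ E] [FiniteDimensional ℝ E]
  [MeasurableSpace E] [BorelSpace E]

lemma pow_mul_exp_le {c : ℝ} (hc : 0 < c) (N : ℕ) {t : ℝ} (ht : 0 ≤ t) :
    (1 + t) ^ N * Real.exp (-(c * t)) ≤ N.factorial * Real.exp c / c ^ N := by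
  have h1 := Real.pow_div_factorial_le_exp (c * (1 + t)) (by positivity) N
  rw [div_le_iff₀ (by positivity), mul_pow] at h1
  rw [le_div_iff₀ (by positivity), Real.exp_neg]
  have h2 : Real.exp (c * (1 + t)) = Real.exp c * Real.exp (c * t) := by
    rw [← Real.exp_add]; congr 1; ring
  rw [h2] at h1
  have h3 : 0 < Real.exp (c * t) := Real.exp_pos _
  rw [mul_assoc, mul_comm, mul_assoc, inv_mul_le_iff₀ h3]
  linarith

/-- Polynomial moments of a function with exponential decay. -/
lemma integrable_moment {F : Type*} [NormedAddCommGroup F] {g : E → F} (hg : Continuous g)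
    {C c : ℝ} (hc : 0 < c) (h : ∀ t, ‖g t‖ ≤ C * Real.exp (-(c * ‖t‖))) (n : ℕ) :
    Integrable (fun v => ‖v‖ ^ n * ‖g v‖) (volume : Measure E) := by
  set r : ℕ := Module.finrank ℝ E + 1 with hr
  have h1 : Integrable (fun x : E => (1 + ‖x‖) ^ (-(r : ℝ))) volume :=
    integrable_one_add_norm (by rw [hr]; push_cast; linarith)
  have hC : 0 ≤ C := by
    have := (norm_nonneg _).trans (h 0)
    rw [norm_zero, mul_zero, neg_zero, Real.exp_zero, mul_one] at this
    exact this
  refine (h1.const_mul (C * ((n + r).factorial * Real.exp c / c ^ (n + r)))).mono'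
    (by apply Continuous.aestronglyMeasurable; fun_prop) ?_
  filter_upwards with x
  rw [norm_mul, norm_pow, norm_norm, norm_norm]
  have h0 : (0 : ℝ) < 1 + ‖x‖ := by positivity
  have h2 := pow_mul_exp_le hc (n + r) (norm_nonneg x)
  have h3 : ‖x‖ ^ n ≤ (1 + ‖x‖) ^ n := pow_le_pow_left₀ (norm_nonneg _) (by linarith) n
  have h4 : (1 + ‖x‖) ^ (-(r : ℝ)) * (1 + ‖x‖) ^ r = 1 := by
    rw [Real.rpow_neg h0.le, Real.rpow_natCast, inv_mul_cancel₀ (by positivity)]
  calc ‖x‖ ^ n * ‖g x‖ ≤ (1 + ‖x‖) ^ n * (C * Real.exp (-(c * ‖x‖))) :=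
        mul_le_mul h3 (h x) (norm_nonneg _) (by positivity)
    _ = (1 + ‖x‖) ^ n * (C * Real.exp (-(c * ‖x‖))) * ((1 + ‖x‖) ^ (-(r : ℝ)) * (1 + ‖x‖) ^ r) := by
        rw [h4, mul_one]
    _ = C * ((1 + ‖x‖) ^ (n + r) * Real.exp (-(c * ‖x‖))) * (1 + ‖x‖) ^ (-(r : ℝ)) := by
        rw [pow_add]; ring
    _ ≤ C * ((n + r).factorial * Real.exp c / c ^ (n + r)) * (1 + ‖x‖) ^ (-(r : ℝ)) := by
        apply mul_le_mul_of_nonneg_right _ (by positivity)
        exact mul_le_mul_of_nonneg_left h2 hC

lemma continuous_charFun' (ν : Measure E) [IsFiniteMeasure ν] : Continuous (charFun ν) := by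
  fun_prop

/-- A finite measure whose characteristic function decays exponentially has a smooth density. -/
theorem smooth_density (ν : Measure E) [IsFiniteMeasure ν] {C c : ℝ} (hc : 0 < c)
    (h : ∀ t, ‖charFun ν t‖ ≤ C * Real.exp (-(c * ‖t‖))) :
    ∃ f : E → ℝ, ContDiff ℝ ∞ f ∧ (∀ x, 0 ≤ f x) ∧
      ν = volume.withDensity (fun x => ENNReal.ofReal (f x)) := by
  have hcont := continuous_charFun' ν
  have hint0 : Integrable (charFun ν) volume := by
    have := integrable_moment hcont hc h 0
    simp only [pow_zero, one_mul] at this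
    exact (integrable_norm_iff hcont.aestronglyMeasurable).mp this
  have hac := absCont_of_charFun ν hint0
  set g : E → ℂ := fun w => charFun ν ((2 * Real.pi) • w) with hg
  have hgc : Continuous g := hcont.comp (continuous_const_smul _)
  have hgd : ∀ t, ‖g t‖ ≤ C * Real.exp (-((c * (2 * Real.pi)) * ‖t‖)) := by
    intro t
    refine (h _).trans (le_of_eq ?_)
    rw [norm_smul, Real.norm_of_nonneg (by positivity)]
    ring_nf
  have hc' : 0 < c * (2 * Real.pi) := by positivity
  have hgi : Integrable g volume := by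
    have := integrable_moment hgc hc' hgd 0
    simp only [pow_zero, one_mul] at this
    exact (integrable_norm_iff hgc.aestronglyMeasurable).mp this
  have hsmooth : ContDiff ℝ ∞ (𝓕 g) := Real.contDiff_fourier fun n _ => integrable_moment hgc hc' hgd n
  set f : E → ℝ := fun x => (𝓕 g x).re with hf
  have hfs : ContDiff ℝ ∞ f := Complex.reCLM.contDiff.comp hsmooth
  -- duality
  have hdual : ∀ φ : E → ℝ, ContDiff ℝ ∞ φ → HasCompactSupport φ →
      ∫ x, φ x ∂ν = ∫ x, φ x • f x := by
    intro φ hφ hφc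
    obtain ⟨i1, i2, e1⟩ := integral_eq_fourier ν hφ hφc
    have e2 : ∫ w, charFun ν ((2 * Real.pi) • w) * 𝓕 (fun x => (φ x : ℂ)) w =
        ∫ x, (φ x : ℂ) * 𝓕 g x := by
      have := VectorFourier.integral_fourierIntegral_smul_eq_flip (L := innerₗ E) (μ := volume)
        (ν := volume) Real.continuous_fourierChar continuous_inner i1 hgi
      have e3 : ∫ w, charFun ν ((2 * Real.pi) • w) * 𝓕 (fun x => (φ x : ℂ)) w =
          ∫ w, 𝓕 (fun x => (φ x : ℂ)) w • g w := by
        apply integral_congr_ae
        filter_upwards with w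
        rw [smul_eq_mul, mul_comm]
      rw [e3]
      refine this.trans ?_
      apply integral_congr_ae
      filter_upwards with x
      rw [smul_eq_mul]
      congr 2
      ext a b
      simp
    rw [e2] at e1
    have hcp : Integrable (fun x => (φ x : ℂ) * 𝓕 g x) volume := by
      apply Continuous.integrable_of_hasCompactSupport
      · exact (Complex.continuous_ofReal.comp hφ.continuous).mul hsmooth.continuous
      · exact (hφc.comp_left (g := fun r : ℝ => (r : ℂ)) (by simp)).mul_right
    have e4 := congrArg Complex.re e1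
    rw [integral_complex_ofReal, Complex.ofReal_re] at e4
    rw [e4]
    have e5 := (Complex.reCLM.integral_comp_comm hcp)
    rw [Complex.reCLM_apply] at e5
    rw [← e5]
    apply integral_congr_ae
    filter_upwards with x
    rw [Complex.reCLM_apply, hf]
    simp
  -- comparison with the Radon-Nikodym derivative
  set ρ : E → ℝ := fun x => (ν.rnDeriv volume x).toReal with hρ
  have hρi : Integrable ρ volume := Measure.integrable_toReal_rnDeriv
  have hae : ∀ᵐ x ∂(volume : Measure E), f x = ρ x := by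
    apply ae_eq_of_integral_contDiff_smul_eq
    · exact hfs.continuous.locallyIntegrable
    · exact hρi.locallyIntegrable
    · intro φ hφ hφc
      rw [← hdual φ hφ hφc, ← integral_rnDeriv_smul hac]
      apply integral_congr_ae
      filter_upwards with x
      simp only [hρ, smul_eq_mul, mul_comm]
  have hnn : ∀ x, 0 ≤ f x := by
    have h1 : IsOpen {x | f x < 0} := isOpen_lt hfs.continuous continuous_const
    have h2 : (volume : Measure E) {x | f x < 0} = 0 := by
      have h3 : ∀ᵐ x ∂(volume : Measure E), ¬ f x < 0 := by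
        filter_upwards [hae] with x hx
        rw [hx, not_lt]
        exact ENNReal.toReal_nonneg
      rw [ae_iff] at h3
      simpa using h3
    rw [h1.measure_eq_zero_iff (μ := volume)] at h2
    intro x
    by_contra hcon
    push Not at hcon
    have : x ∈ {x | f x < 0} := hcon
    rw [h2] at this
    exact this
  refine ⟨f, hfs, hnn, ?_⟩
  have hlast : volume.withDensity (ν.rnDeriv volume) =
      volume.withDensity (fun x => ENNReal.ofReal (f x)) := by
    apply withDensity_congr_ae
    filter_upwards [hae, ν.rnDeriv_lt_top volume] with x hx hx'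
    rw [hx, hρ, ENNReal.ofReal_toReal hx'.ne]
  rw [← hlast, Measure.withDensity_rnDeriv_eq ν volume hac]

end E

/-- **D2s**: a probability measure on `I → ℝ` whose characteristic function decays exponentially
has a smooth density. -/
theorem D2s {I : Type*} [Fintype I] (μ : ProbabilityMeasure (I → ℝ)) (C c : ℝ) (hc : 0 < c)
    (h : ∀ ξ : I → ℝ, ‖∫ x : I → ℝ,
      Complex.exp (((∑ i, ξ i * x i : ℝ) : ℂ) * Complex.I) ∂(μ : Measure (I → ℝ))‖
        ≤ C * Real.exp (-(c * ‖ξ‖))) :
    ∃ f : (I → ℝ) → ℝ, ContDiff ℝ ∞ f ∧ (∀ x, 0 ≤ f x) ∧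
      (μ : Measure (I → ℝ)) = volume.withDensity (fun x => ENNReal.ofReal (f x)) := by
  classical
  have hp := PiLp.volume_preserving_toLp I
  set e : (I → ℝ) → EuclideanSpace ℝ I := WithLp.toLp 2 with he
  have hme : Measurable e := hp.measurable
  have hemb : MeasurableEmbedding e := (MeasurableEquiv.toLp 2 (I → ℝ)).measurableEmbedding
  set ν : Measure (EuclideanSpace ℝ I) := (μ : Measure (I → ℝ)).map e with hν
  have hfin : IsFiniteMeasure ν := Measure.isFiniteMeasure_map _ _
  have hC : 0 ≤ C := by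
    have := (norm_nonneg _).trans (h 0)
    rw [norm_zero, mul_zero, neg_zero, Real.exp_zero, mul_one] at this
    exact this
  -- comparison of the norms
  obtain ⟨κ, hκ, hκn⟩ : ∃ κ : ℝ, 0 < κ ∧ ∀ t : EuclideanSpace ℝ I,
      κ * ‖t‖ ≤ ‖(WithLp.ofLp t : I → ℝ)‖ := by
    refine ⟨(Real.sqrt (Fintype.card I) + 1)⁻¹, by positivity, fun t => ?_⟩
    rw [inv_mul_le_iff₀ (by positivity)]
    rw [EuclideanSpace.norm_eq]
    have h1 : ∑ i, ‖t i‖ ^ 2 ≤ Fintype.card I * ‖(WithLp.ofLp t : I → ℝ)‖ ^ 2 := by
      calc ∑ i, ‖t i‖ ^ 2 ≤ ∑ _i : I, ‖(WithLp.ofLp t : I → ℝ)‖ ^ 2 := by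
            apply Finset.sum_le_sum
            intro i _
            exact pow_le_pow_left₀ (norm_nonneg _) (norm_le_pi_norm (WithLp.ofLp t : I → ℝ) i) 2
        _ = _ := by rw [Finset.sum_const, Finset.card_univ, nsmul_eq_mul]
    calc Real.sqrt (∑ i, ‖t i‖ ^ 2)
        ≤ Real.sqrt (Fintype.card I * ‖(WithLp.ofLp t : I → ℝ)‖ ^ 2) := Real.sqrt_le_sqrt h1
      _ = Real.sqrt (Fintype.card I) * ‖(WithLp.ofLp t : I → ℝ)‖ := by
          rw [Real.sqrt_mul (by positivity), Real.sqrt_sq (norm_nonneg _)]
      _ ≤ (Real.sqrt (Fintype.card I) + 1) * ‖(WithLp.ofLp t : I → ℝ)‖ := by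
          apply mul_le_mul_of_nonneg_right _ (norm_nonneg _)
          linarith
  have hch : ∀ t, ‖charFun ν t‖ ≤ C * Real.exp (-((c * κ) * ‖t‖)) := by
    intro t
    have e1 : charFun ν t = ∫ x : I → ℝ,
      Complex.exp (((∑ i, (WithLp.ofLp t : I → ℝ) i * x i : ℝ) : ℂ) * Complex.I)
        ∂(μ : Measure (I → ℝ)) := by
      rw [charFun_apply, hν, hemb.integral_map]
      apply integral_congr_ae
      filter_upwards with x
      congr 2
    rw [e1]
    refine (h _).trans ?_
    apply mul_le_mul_of_nonneg_left _ hC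
    apply Real.exp_le_exp.mpr
    have := mul_le_mul_of_nonneg_left (hκn t) hc.le
    linarith
  obtain ⟨f, hf, hf0, hfν⟩ := smooth_density ν (mul_pos hc hκ) hch
  refine ⟨fun x => f (e x), ?_, fun x => hf0 _, ?_⟩
  · exact hf.comp (PiLp.continuousLinearEquiv 2 ℝ (fun _ : I => ℝ)).symm.contDiff
  · ext s hs
    have h1 : (μ : Measure (I → ℝ)) s = ν (e '' s) := by
      rw [hν, hemb.map_apply, hemb.injective.preimage_image]
    rw [h1, hfν, withDensity_apply _ (hemb.measurableSet_image.mpr hs), withDensity_apply _ hs]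
    have h2 := hp.setLIntegral_comp_preimage_emb hemb (fun x => ENNReal.ofReal (f x)) (e '' s)
    rw [hemb.injective.preimage_image] at h2
    exact h2.symm

end Pool.Agent.Helper59.GC
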